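import Pool.Agent.helper73.TC.SDefs

/-!
# Identities for affine chains (module TC-S1)

The cone formula, `abd ∘ abd = 0`, the subdivision operator is a chain map and `aT` is a chain
homotopy between the identity and the subdivision.
-/

set_option autoImplicit false
open Topology

noncomputable section
namespace Pool.Agent.helper73.TC

section S1
variable (F : Type) [Field F] (N : ℕ)

theorem abd_single (m : ℕ) (v : AS N (m + 1)) (a : F) :
    abd F N m (Finsupp.single v a) =
      ∑ i : Fin (m + 2), (-1 : F) ^ (i : ℕ) •
        (Finsupp.single (v ∘ i.succAbove : AS N m) a : AC F N m) := by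
  simp [abd, LinearMap.sum_apply, Finsupp.lmapDomain_apply, Finsupp.mapDomain_single]

theorem acone_single {m : ℕ} (b : stdSimplex ℝ (Fin (N + 1))) (v : AS N m) (a : F) :
    acone F N b (Finsupp.single v a) = Finsupp.single (Fin.cons b v : AS N (m + 1)) a := by
  simp [acone, Finsupp.lmapDomain_apply, Finsupp.mapDomain_single]

theorem cons_comp_succAbove {m : ℕ} (b : stdSimplex ℝ (Fin (N + 1))) (v : AS N (m + 1))
    (j : Fin (m + 2)) :
    ((Fin.cons b v : AS N (m + 2)) ∘ j.succ.succAbove : AS N (m + 1)) =
      (Fin.cons b (v ∘ j.succAbove : AS N m) : AS N (m + 1)) := by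
  funext l
  refine Fin.cases ?_ (fun l => ?_) l
  · simp
  · simp [Fin.succ_succAbove_succ]

theorem cons_comp_zero {m : ℕ} (b : stdSimplex ℝ (Fin (N + 1))) (v : AS N m) :
    ((Fin.cons b v : AS N (m + 1)) ∘ (0 : Fin (m + 2)).succAbove : AS N m) = v := by
  funext l
  simp

/-- linear maps agreeing on basis vectors agree -/
theorem ac_ext {m : ℕ} {M : Type} [AddCommGroup M] [Module F M] {f g : AC F N m →ₗ[F] M}
    (h : ∀ v : AS N m, f (Finsupp.single v 1) = g (Finsupp.single v 1)) : f = g := by
  apply Finsupp.lhom_ext'
  intro v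
  apply LinearMap.ext_ring
  simpa using h v

/-- the cone formula in positive degrees -/
theorem abd_acone {m : ℕ} (b : stdSimplex ℝ (Fin (N + 1))) (c : AC F N (m + 1)) :
    abd F N (m + 1) (acone F N b c) = c - acone F N b (abd F N m c) := by
  have : (abd F N (m + 1)) ∘ₗ (acone F N b) =
      LinearMap.id - (acone F N b) ∘ₗ (abd F N m) := by
    apply ac_ext
    intro v
    simp only [LinearMap.comp_apply, LinearMap.sub_apply, LinearMap.id_apply]
    rw [acone_single, abd_single, abd_single, Fin.sum_univ_succ, map_sum]
    simp only [Fin.val_zero, pow_zero, one_smul, cons_comp_zero, cons_comp_succAbove, map_smul,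
      acone_single, Fin.val_succ, pow_succ]
    rw [sub_eq_add_neg, ← Finset.sum_neg_distrib]
    congr 1
    refine Finset.sum_congr rfl fun i _ => ?_
    rw [← neg_smul]
    congr 1
    ring
  exact LinearMap.congr_fun this c

/-- the sum of the coefficients of a `0`-chain -/
def asum : AC F N 0 →ₗ[F] F := Finsupp.lsum F fun _ => LinearMap.id

theorem asum_single (v : AS N 0) (a : F) : asum F N (Finsupp.single v a) = a := by
  simp [asum]

/-- the cone formula in degree zero -/
theorem abd_acone_zero (b : stdSimplex ℝ (Fin (N + 1))) (c : AC F N 0) :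
    abd F N 0 (acone F N b c) =
      c - asum F N c • (Finsupp.single (fun _ => b : AS N 0) 1 : AC F N 0) := by
  have : (abd F N 0) ∘ₗ (acone F N b) =
      LinearMap.id - (LinearMap.toSpanSingleton F _
        (Finsupp.single (fun _ => b : AS N 0) 1 : AC F N 0)) ∘ₗ (asum F N) := by
    apply ac_ext
    intro v
    simp only [LinearMap.comp_apply, LinearMap.sub_apply, LinearMap.id_apply,
      LinearMap.toSpanSingleton_apply]
    rw [acone_single, abd_single, asum_single, Fin.sum_univ_succ]
    simp only [Fin.val_zero, pow_zero, one_smul, cons_comp_zero]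
    rw [sub_eq_add_neg]
    congr 1
    rw [Finset.sum_eq_single (0 : Fin 1) (fun i _ hi => absurd (Fin.eq_zero i) hi)
      (fun h => absurd (Finset.mem_univ _) h)]
    have h2 : ((Fin.cons b v : AS N 1) ∘ (Fin.succ (0 : Fin 1)).succAbove : AS N 0) =
        fun _ => b := by
      funext l
      rw [Fin.eq_zero l]
      rfl
    rw [h2]
    simp
  exact LinearMap.congr_fun this c

theorem asum_abd (c : AC F N 1) : asum F N (abd F N 0 c) = 0 := by
  have : (asum F N) ∘ₗ (abd F N 0) = 0 := by
    apply ac_ext
    intro v
    simp only [LinearMap.comp_apply, LinearMap.zero_apply]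
    rw [abd_single, map_sum, Fin.sum_univ_two]
    simp [asum_single]
  exact LinearMap.congr_fun this c

theorem single_eq_acone {m : ℕ} (v : AS N (m + 1)) (a : F) :
    (Finsupp.single v a : AC F N (m + 1)) =
      acone F N (v 0) (Finsupp.single (Fin.tail v : AS N m) a) := by
  rw [acone_single]
  congr 1
  exact (Fin.cons_self_tail v).symm

/-- the boundary of a boundary is zero -/
theorem abd_abd (m : ℕ) : ∀ c : AC F N (m + 2), abd F N m (abd F N (m + 1) c) = 0 := by
  induction m with
  | zero =>
    intro c
    have : (abd F N 0) ∘ₗ (abd F N 1) = 0 := by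
      apply ac_ext
      intro v
      simp only [LinearMap.comp_apply, LinearMap.zero_apply]
      rw [single_eq_acone, abd_acone, map_sub, abd_acone_zero, asum_abd]
      simp
    exact LinearMap.congr_fun this c
  | succ m ih =>
    intro c
    have : (abd F N (m + 1)) ∘ₗ (abd F N (m + 2)) = 0 := by
      apply ac_ext
      intro v
      simp only [LinearMap.comp_apply, LinearMap.zero_apply]
      rw [single_eq_acone, abd_acone, map_sub, abd_acone, ih]
      simp
    exact LinearMap.congr_fun this c

theorem aSd_single (m : ℕ) (v : AS N (m + 1)) :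
    aSd F N (m + 1) (Finsupp.single v 1) =
      acone F N (abary v) (aSd F N m (abd F N m (Finsupp.single v 1))) := by
  simp [aSd]

theorem aT_single (m : ℕ) (v : AS N (m + 1)) :
    aT F N (m + 1) (Finsupp.single v 1) =
      acone F N (abary v) (Finsupp.single v 1 - aT F N m (abd F N m (Finsupp.single v 1))) := by
  simp [aT]

theorem abd_aSd (m : ℕ) (c : AC F N (m + 1)) :
    abd F N m (aSd F N (m + 1) c) = aSd F N m (abd F N m c) := by
  induction m with
  | zero =>
    have : (abd F N 0) ∘ₗ (aSd F N 1) = (aSd F N 0) ∘ₗ (abd F N 0) := by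
      apply ac_ext
      intro v
      simp only [LinearMap.comp_apply]
      rw [aSd_single, abd_acone_zero]
      simp only [aSd, LinearMap.id_apply]
      rw [asum_abd]
      simp
    exact LinearMap.congr_fun this c
  | succ m ih =>
    have : (abd F N (m + 1)) ∘ₗ (aSd F N (m + 2)) = (aSd F N (m + 1)) ∘ₗ (abd F N (m + 1)) := by
      apply ac_ext
      intro v
      simp only [LinearMap.comp_apply]
      rw [aSd_single, abd_acone, ih, abd_abd]
      simp
    exact LinearMap.congr_fun this c

theorem abd_aT_zero (c : AC F N 0) : abd F N 0 (aT F N 0 c) = c - aSd F N 0 c := by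
  simp [aT, aSd]

theorem abd_aT (m : ℕ) (c : AC F N (m + 1)) :
    abd F N (m + 1) (aT F N (m + 1) c) + aT F N m (abd F N m c) = c - aSd F N (m + 1) c := by
  induction m with
  | zero =>
    have : (abd F N 1) ∘ₗ (aT F N 1) + (aT F N 0) ∘ₗ (abd F N 0) =
        LinearMap.id - aSd F N 1 := by
      apply ac_ext
      intro v
      simp only [LinearMap.comp_apply, LinearMap.add_apply, LinearMap.sub_apply,
        LinearMap.id_apply]
      rw [aT_single, aSd_single, abd_acone, map_sub, abd_aT_zero, sub_sub_cancel]
      abel
    exact LinearMap.congr_fun this c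
  | succ m ih =>
    have : (abd F N (m + 2)) ∘ₗ (aT F N (m + 2)) + (aT F N (m + 1)) ∘ₗ (abd F N (m + 1)) =
        LinearMap.id - aSd F N (m + 2) := by
      apply ac_ext
      intro v
      simp only [LinearMap.comp_apply, LinearMap.add_apply, LinearMap.sub_apply,
        LinearMap.id_apply]
      rw [aT_single, aSd_single, abd_acone, map_sub, eq_sub_of_add_eq (ih _), abd_abd, map_zero,
        sub_zero, sub_sub_cancel]
      abel
    exact LinearMap.congr_fun this c

end S1

end Pool.Agent.helper73.TC
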